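import Pool.Agent.helper84.NR.Spec

set_option autoImplicit false

namespace Pool.Agent.helper84.NR

open scoped Classical
open Finset

theorem CCT (hXCL : XCL_stmt) (hCLS : CLS_stmt) : CCT_stmt := by
  intro V F _ _ M x y J hT
  obtain ⟨hX, hY⟩ := hXCL V F M x y J hT
  have : Fintype (Quot (lk M (inU M x y J))) := Fintype.ofFinite _
  rw [Nat.card_eq_fintype_card]
  obtain ⟨G, hG⟩ : ∃ G : Finset (Quot (lk M (inU M x y J))), G = univ.filter (fun q =>
      (∀ A, OnV M.toCyc A x → Quot.mk _ A ≠ q) ∧ (∀ B, OnV M.toCyc B y → Quot.mk _ B ≠ q)) :=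
    ⟨_, rfl⟩
  have h1 : G.card * 2 ≤ (gaps M x y J).card * 1 := by
    refine Finset.card_mul_le_card_mul (fun (q : Quot (lk M (inU M x y J))) (c : (_ : F) × ℕ) =>
      ∃ g, OnE M.toCyc g s(ww M y c.1 c.2, ww M y c.1 (c.2 + 1)) ∧ Quot.mk _ g = q) ?_ ?_
    · intro q hq
      rw [hG, mem_filter] at hq
      obtain ⟨c1, hc1, c2, hc2, hne, hg1, hg2⟩ := hCLS V F M x y J hT q hq.2.1 hq.2.2
      have hsub : ({c1, c2} : Finset ((_ : F) × ℕ)) ⊆
          (gaps M x y J).bipartiteAbove (fun (q : Quot (lk M (inU M x y J))) (c : (_ : F) × ℕ) =>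
            ∃ g, OnE M.toCyc g s(ww M y c.1 c.2, ww M y c.1 (c.2 + 1)) ∧ Quot.mk _ g = q) q := by
        intro c hc
        rw [mem_insert, mem_singleton] at hc
        rw [mem_bipartiteAbove]
        rcases hc with rfl | rfl
        · exact ⟨hc1, hg1⟩
        · exact ⟨hc2, hg2⟩
      have := card_le_card hsub
      rw [card_pair hne] at this
      exact this
    · intro c hc
      rw [gaps, mem_sigma] at hc
      have hBy : OnV M.toCyc c.1 y := hT.jy _ hc.1
      have hBe : OnE M.toCyc c.1 s(ww M y c.1 c.2, ww M y c.1 (c.2 + 1)) := ⟨st M y c.1 + c.2, rfl⟩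
      obtain ⟨g', hg', -, hall⟩ := M.two _ _ hBe
      rw [card_le_one]
      intro q1 hq1 q2 hq2
      rw [mem_bipartiteBelow, hG, mem_filter] at hq1 hq2
      obtain ⟨⟨-, -, hq1y⟩, g1, hg1, hg1q⟩ := hq1
      obtain ⟨⟨-, -, hq2y⟩, g2, hg2, hg2q⟩ := hq2
      have e1 : g1 = g' := by
        rcases hall g1 hg1 with h | h
        · exfalso; rw [h] at hg1q; exact hq1y _ hBy hg1q
        · exact h
      have e2 : g2 = g' := by
        rcases hall g2 hg2 with h | h
        · exfalso; rw [h] at hg2q; exact hq2y _ hBy hg2q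
        · exact h
      rw [← hg1q, ← hg2q, e1, e2]
  have h2 : Fintype.card (Quot (lk M (inU M x y J))) ≤ G.card + 1 + 1 := by
    have hcov : (univ : Finset (Quot (lk M (inU M x y J)))) ⊆
        (G ∪ univ.filter (fun q => ∃ A, OnV M.toCyc A x ∧ Quot.mk _ A = q)) ∪
          univ.filter (fun q => ∃ B, OnV M.toCyc B y ∧ Quot.mk _ B = q) := by
      intro q _
      rw [mem_union, mem_union, hG, mem_filter, mem_filter, mem_filter]
      by_cases ha : ∃ A, OnV M.toCyc A x ∧ Quot.mk (lk M (inU M x y J)) A = q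
      · exact Or.inl (Or.inr ⟨mem_univ _, ha⟩)
      · by_cases hb : ∃ B, OnV M.toCyc B y ∧ Quot.mk (lk M (inU M x y J)) B = q
        · exact Or.inr ⟨mem_univ _, hb⟩
        · exact Or.inl (Or.inl ⟨mem_univ _, fun A hA h => ha ⟨A, hA, h⟩, fun B hB h => hb ⟨B, hB, h⟩⟩)
    have hx1 : (univ.filter (fun q : Quot (lk M (inU M x y J)) =>
        ∃ A, OnV M.toCyc A x ∧ Quot.mk _ A = q)).card ≤ 1 := by
      rw [card_le_one]
      intro q1 h1 q2 h2
      rw [mem_filter] at h1 h2
      obtain ⟨-, A1, hA1, e1⟩ := h1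
      obtain ⟨-, A2, hA2, e2⟩ := h2
      rw [← e1, ← e2]
      exact hX A1 A2 hA1 hA2
    have hy1 : (univ.filter (fun q : Quot (lk M (inU M x y J)) =>
        ∃ B, OnV M.toCyc B y ∧ Quot.mk _ B = q)).card ≤ 1 := by
      rw [card_le_one]
      intro q1 h1 q2 h2
      rw [mem_filter] at h1 h2
      obtain ⟨-, A1, hA1, e1⟩ := h1
      obtain ⟨-, A2, hA2, e2⟩ := h2
      rw [← e1, ← e2]
      exact hY A1 A2 hA1 hA2
    calc Fintype.card (Quot (lk M (inU M x y J))) = (univ : Finset (Quot (lk M (inU M x y J)))).card :=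
          rfl
      _ ≤ _ := card_le_card hcov
      _ ≤ _ := card_union_le _ _
      _ ≤ _ := Nat.add_le_add_right (card_union_le _ _) _
      _ ≤ G.card + 1 + 1 := by omega
  omega

end Pool.Agent.helper84.NR
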