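import Pool.Agent.helper84.NR.Spec

set_option autoImplicit false

namespace Pool.Agent.helper84.NR

open scoped Classical
open Finset

/-- The edges of `A` at the vertex number `k` (`1 ≤ k`, `k + 1 < len A`). -/
theorem WLX_edges (hIDX : IDX_stmt) {V F : Type} (M : PMap V F) (x : V) (A : F) (k : ℕ)
    (hk2 : k < M.len A) (e : Sym2 V) (he : OnE M.toCyc A e) (hv : ww M x A k ∈ e)
    (hne : ww M x A k ≠ ww M x A 0) :
    e = s(ww M x A (k - 1), ww M x A k) ∨ e = s(ww M x A k, ww M x A (k + 1)) := by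
  obtain ⟨h1, -, h3, -, h5⟩ := hIDX V F M.toCyc A (st M x A)
  obtain ⟨a, ha, rfl⟩ := h3 e he
  rw [Sym2.mem_iff] at hv
  rcases hv with hv | hv
  · have hka : k = a := h1 k a hk2 ha hv
    right
    rw [hka]
    rfl
  · by_cases ha1 : a + 1 < M.len A
    · have hka : k = a + 1 := h1 k (a + 1) hk2 ha1 (by rw [← add_assoc]; exact hv)
      left
      rw [hka, Nat.add_sub_cancel]
      rfl
    · exfalso
      have ha2 : a + 1 = M.len A := by omega
      apply hne
      have e1 : M.bd A (st M x A + a + 1) = M.bd A (st M x A) := by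
        rw [add_assoc, ha2]; exact h5
      calc ww M x A k = M.bd A (st M x A + a + 1) := hv
        _ = M.bd A (st M x A) := e1
        _ = ww M x A 0 := rfl

theorem WLX_step (hIDX : IDX_stmt) (hEDG : EDG_stmt) (hDEG : DEG_stmt) (hPAR : PAR_stmt)
    (hWW0 : WW0_stmt) {V F : Type} [Fintype V] [Fintype F] (M : PMap V F) (x y : V) (J : Finset F)
    (hT : TopH M x y J) (q : Quot (lk M (inU M x y J)))
    (hq : ∀ A, OnV M.toCyc A x → Quot.mk _ A ≠ q) (A : F) (hA : OnV M.toCyc A x) (k : ℕ)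
    (hk : 1 ≤ k) (hk2 : k < M.len A) (hno : ¬ ∃ B ∈ J, OnV M.toCyc B (ww M x A k)) :
    k ≠ 1 ∧ k ≠ M.len A - 1 ∧
    ((∃ g, OnE M.toCyc g s(ww M x A (k - 1), ww M x A k) ∧ Quot.mk _ g = q) ↔
      (∃ g, OnE M.toCyc g s(ww M x A k, ww M x A (k + 1)) ∧ Quot.mk _ g = q)) := by
  obtain ⟨w0, wl⟩ := hWW0 V F M x A hA
  obtain ⟨h1, -, -, -, -⟩ := hIDX V F M.toCyc A (st M x A)
  have h3len := M.three A
  have hnadj : ¬ Adj M.toCyc x (ww M x A k) := fun h => hno (hT.js _ h)
  have hkx : ww M x A k ≠ x := by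
    intro h
    have := h1 k 0 hk2 (by omega) (h.trans w0.symm)
    omega
  have hk1 : k ≠ 1 := by
    intro h
    apply hnadj
    refine ⟨A, st M x A, ?_⟩
    rw [h]
    exact Sym2.eq_iff.mpr (Or.inl ⟨w0.symm, rfl⟩)
  have hkl : k ≠ M.len A - 1 := by
    intro h
    apply hnadj
    refine ⟨A, st M x A + k, ?_⟩
    have e1 : M.bd A (st M x A + k + 1) = x := by
      have : st M x A + k + 1 = st M x A + M.len A := by omega
      rw [this]; exact wl
    rw [e1, Sym2.eq_swap]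
    rfl
  refine ⟨hk1, hkl, ?_⟩
  have hOnk : OnV M.toCyc A (ww M x A k) := ⟨st M x A + k, rfl⟩
  -- the two edges
  have he1 : OnE M.toCyc A s(ww M x A (k - 1), ww M x A k) := by
    refine ⟨st M x A + (k - 1), ?_⟩
    have : st M x A + (k - 1) + 1 = st M x A + k := by omega
    rw [this]
    rfl
  have he2 : OnE M.toCyc A s(ww M x A k, ww M x A (k + 1)) := ⟨st M x A + k, rfl⟩
  have hne12 : s(ww M x A (k - 1), ww M x A k) ≠ s(ww M x A k, ww M x A (k + 1)) := by
    intro h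
    rw [Sym2.eq_iff] at h
    rcases h with ⟨h, -⟩ | ⟨h, -⟩
    · have := h1 (k - 1) k (by omega) hk2 h
      omega
    · have := h1 (k - 1) (k + 1) (by omega) (by omega) h
      omega
  have hev := hPAR V F M {f | Quot.mk (lk M (inU M x y J)) f = q} (ww M x A k)
  -- separating edges
  have hsep : ∀ e : Sym2 V, ww M x A k ∈ e → (∃ f, OnE M.toCyc f e ∧ Quot.mk (lk M (inU M x y J)) f = q) →
      (∃ g, OnE M.toCyc g e ∧ ¬ Quot.mk (lk M (inU M x y J)) g = q) →
      e = s(ww M x A (k - 1), ww M x A k) ∨ e = s(ww M x A k, ww M x A (k + 1)) := by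
    intro e hve ⟨f, hf, hfq⟩ ⟨g, hg, hgq⟩
    have hU : inU M x y J e := by
      by_contra hU
      apply hgq
      rw [← hfq]
      exact (Quot.sound ⟨e, hU, hf, hg⟩).symm
    have hon : ∀ B : F, OnE M.toCyc B e → OnV M.toCyc B (ww M x A k) := by
      intro B hB
      have : e = s(ww M x A k, Sym2.Mem.other hve) := (Sym2.other_spec hve).symm
      rw [this] at hB
      exact ((hEDG V F M).1 B _ _ hB).1
    rcases hU with ⟨-, A', hA'x, hA'e⟩ | ⟨B, hB, k', -, hBe⟩
    · have hAA : A = A' := (hDEG V F M x).1 _ A A' hkx hnadj hA hOnk hA'x (hon A' hA'e)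
      rw [← hAA] at hA'e
      exact WLX_edges hIDX M x A k hk2 e hA'e hve (by rw [w0]; exact hkx)
    · exfalso
      exact hno ⟨B, hB, hon B ⟨st M y B + k', hBe⟩⟩
  have hAq : ¬ Quot.mk (lk M (inU M x y J)) A = q := hq A hA
  obtain ⟨T, hTdef⟩ : ∃ T : Finset (Sym2 V), T = (univ.filter (fun e : Sym2 V => ww M x A k ∈ e ∧
    (∃ f, OnE M.toCyc f e ∧ f ∈ {f | Quot.mk (lk M (inU M x y J)) f = q}) ∧
    ∃ g, OnE M.toCyc g e ∧ g ∉ {f | Quot.mk (lk M (inU M x y J)) f = q})) := ⟨_, rfl⟩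
  rw [← hTdef] at hev
  have hmem : ∀ e, e ∈ T ↔ (ww M x A k ∈ e ∧
      (∃ f, OnE M.toCyc f e ∧ Quot.mk (lk M (inU M x y J)) f = q) ∧
      ∃ g, OnE M.toCyc g e ∧ ¬ Quot.mk (lk M (inU M x y J)) g = q) := by
    intro e
    rw [hTdef, mem_filter]
    simp only [mem_univ, true_and, Set.mem_ofPred_eq]
  have hm1 : (s(ww M x A (k - 1), ww M x A k) ∈ T ↔
      ∃ g, OnE M.toCyc g s(ww M x A (k - 1), ww M x A k) ∧ Quot.mk (lk M (inU M x y J)) g = q) := by
    rw [hmem]
    exact ⟨fun h => h.2.1, fun h => ⟨Sym2.mem_mk_right _ _, h, A, he1, hAq⟩⟩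
  have hm2 : (s(ww M x A k, ww M x A (k + 1)) ∈ T ↔
      ∃ g, OnE M.toCyc g s(ww M x A k, ww M x A (k + 1)) ∧ Quot.mk (lk M (inU M x y J)) g = q) := by
    rw [hmem]
    exact ⟨fun h => h.2.1, fun h => ⟨Sym2.mem_mk_left _ _, h, A, he2, hAq⟩⟩
  rw [← hm1, ← hm2]
  have hsub : ∀ e ∈ T, e = s(ww M x A (k - 1), ww M x A k) ∨ e = s(ww M x A k, ww M x A (k + 1)) := by
    intro e he
    rw [hmem] at he
    exact hsep e he.1 he.2.1 he.2.2
  constructor
  · intro h
    by_contra h'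
    have : T = {s(ww M x A (k - 1), ww M x A k)} := by
      ext e
      rw [mem_singleton]
      constructor
      · intro he
        rcases hsub e he with h2 | h2
        · exact h2
        · exfalso; apply h'; rw [← h2]; exact he
      · rintro rfl; exact h
    rw [this, card_singleton] at hev
    exact absurd hev (by decide)
  · intro h
    by_contra h'
    have : T = {s(ww M x A k, ww M x A (k + 1))} := by
      ext e
      rw [mem_singleton]
      constructor
      · intro he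
        rcases hsub e he with h2 | h2
        · exfalso; apply h'; rw [← h2]; exact he
        · exact h2
      · rintro rfl; exact h
    rw [this, card_singleton] at hev
    exact absurd hev (by decide)

theorem WLX (hIDX : IDX_stmt) (hEDG : EDG_stmt) (hDEG : DEG_stmt) (hPAR : PAR_stmt) (hWW0 : WW0_stmt) : WLX_stmt := by
  intro V F _ _ M x y J hT q hq A hA i hi hi2 hg
  have down : ∀ i : ℕ, 1 ≤ i → i < M.len A →
      (∃ g, OnE M.toCyc g s(ww M x A i, ww M x A (i + 1)) ∧ Quot.mk _ g = q) →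
      ∃ i1, 1 ≤ i1 ∧ i1 ≤ i ∧ (∃ B ∈ J, OnV M.toCyc B (ww M x A i1)) ∧
        (∃ g, OnE M.toCyc g s(ww M x A i1, ww M x A (i1 + 1)) ∧ Quot.mk _ g = q) := by
    intro i
    induction i with
    | zero => intro h; omega
    | succ i ih =>
      intro h1 h2 h3
      by_cases hno : ∃ B ∈ J, OnV M.toCyc B (ww M x A (i + 1))
      · exact ⟨i + 1, h1, le_refl _, hno, h3⟩
      · obtain ⟨s1, s2, s3⟩ := WLX_step hIDX hEDG hDEG hPAR hWW0 M x y J hT q hq A hA (i + 1) h1 h2 hno
        have h4 := s3.mpr h3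
        rw [Nat.add_sub_cancel] at h4
        obtain ⟨i1, a1, a2, a3, a4⟩ := ih (by omega) (by omega) h4
        exact ⟨i1, a1, by omega, a3, a4⟩
  have up : ∀ d j : ℕ, j + d = M.len A - 1 → 1 ≤ j →
      (∃ g, OnE M.toCyc g s(ww M x A (j - 1), ww M x A j) ∧ Quot.mk _ g = q) →
      ∃ i2, j ≤ i2 ∧ i2 < M.len A ∧ (∃ B ∈ J, OnV M.toCyc B (ww M x A i2)) ∧
        (∃ g, OnE M.toCyc g s(ww M x A (i2 - 1), ww M x A i2) ∧ Quot.mk _ g = q) := by
    intro d
    induction d with
    | zero =>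
      intro j h1 h2 h3
      have hlen := M.three A
      by_cases hno : ∃ B ∈ J, OnV M.toCyc B (ww M x A j)
      · exact ⟨j, le_refl _, by omega, hno, h3⟩
      · obtain ⟨s1, s2, s3⟩ := WLX_step hIDX hEDG hDEG hPAR hWW0 M x y J hT q hq A hA j h2 (by omega) hno
        omega
    | succ d ih =>
      intro j h1 h2 h3
      by_cases hno : ∃ B ∈ J, OnV M.toCyc B (ww M x A j)
      · exact ⟨j, le_refl _, by omega, hno, h3⟩
      · obtain ⟨s1, s2, s3⟩ := WLX_step hIDX hEDG hDEG hPAR hWW0 M x y J hT q hq A hA j h2 (by omega) hno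
        have h4 := s3.mp h3
        obtain ⟨i2, a1, a2, a3, a4⟩ := ih (j + 1) (by omega) (by omega)
          (by rw [Nat.add_sub_cancel]; exact h4)
        exact ⟨i2, by omega, a2, a3, a4⟩
  obtain ⟨i1, a1, a2, a3, a4⟩ := down i hi (by omega) hg
  obtain ⟨i2, b1, b2, b3, b4⟩ := up (M.len A - 1 - (i + 1)) (i + 1) (by omega) (by omega)
    (by rw [Nat.add_sub_cancel]; exact hg)
  exact ⟨i1, i2, a1, a2, b1, b2, a3, b3, a4, b4⟩

end Pool.Agent.helper84.NR
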